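import Pool.Agent.W854.IG.Stmts
import Pool.Agent.W854.IG.Base

/-!
FKG comparison of boundary conditions and volumes.
-/

open Finset MeasureTheory Filter Topology
open scoped FinsetFamily

namespace Pool.Agent.W337.IG

open Pool.Agent.W854.IG

theorem sp_super (s t s' t' : Bool) :
    sp s * sp t + sp s' * sp t' ≤ sp (s ⊓ s') * sp (t ⊓ t') + sp (s ⊔ s') * sp (t ⊔ t') := by
  cases s <;> cases t <;> cases s' <;> cases t' <;> simp <;> norm_num

theorem Hg_super {P ι : Type} (E : Finset ι) (a b : ι → P) (J : ι → ℝ) (hJ : ∀ e ∈ E, 0 ≤ J e)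
    (s t : P → Bool) : Hg E a b J s + Hg E a b J t ≤ Hg E a b J (s ⊓ t) + Hg E a b J (s ⊔ t) := by
  unfold Hg
  rw [← Finset.sum_add_distrib, ← Finset.sum_add_distrib]
  apply Finset.sum_le_sum
  intro e he
  rw [← mul_add, ← mul_add]
  exact mul_le_mul_of_nonneg_left (sp_super _ _ _ _) (hJ e he)

theorem exp_super {P ι : Type} (E : Finset ι) (a b : ι → P) (J : ι → ℝ) (hJ : ∀ e ∈ E, 0 ≤ J e)
    (s t : P → Bool) : Real.exp (Hg E a b J s) * Real.exp (Hg E a b J t) ≤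
      Real.exp (Hg E a b J (s ⊓ t)) * Real.exp (Hg E a b J (s ⊔ t)) := by
  rw [← Real.exp_add, ← Real.exp_add]
  exact Real.exp_le_exp.2 (Hg_super E a b J hJ s t)

theorem compare {P ι : Type} [DecidableEq P] (E : Finset ι) (a b : ι → P) (J : ι → ℝ)
    (hJ : ∀ e ∈ E, 0 ≤ J e) (Λ₁ Λ₂ : Finset P) (τ₁ τ₂ : P → Bool)
    (h : ∀ s ∈ cf Λ₁ τ₁, ∀ t ∈ cf Λ₂ τ₂, s ⊓ t ∈ cf Λ₁ τ₁ ∧ s ⊔ t ∈ cf Λ₂ τ₂)
    (f : (P → Bool) → ℝ) (hf : Monotone f) : av Λ₁ τ₁ E a b J f ≤ av Λ₂ τ₂ E a b J f := by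
  classical
  obtain ⟨F, hF⟩ : ∃ F : (P → Bool) → ℝ, F = fun σ => f σ - f ⊥ := ⟨_, rfl⟩
  have hF0 : ∀ σ, 0 ≤ F σ := by
    intro σ
    rw [hF]
    exact sub_nonneg.2 (hf bot_le)
  have hFm : Monotone F := by
    intro s t hst
    rw [hF]
    exact sub_le_sub_right (hf hst) _
  have hav : ∀ (Λ : Finset P) (τ : P → Bool), av Λ τ E a b J f = av Λ τ E a b J F + f ⊥ := by
    intro Λ τ
    have h1 : f = fun σ => F σ + (fun _ => f ⊥) σ := by
      funext σ
      rw [hF]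
      simp
    conv_lhs => rw [h1]
    rw [av_add, av_const]
  rw [hav, hav]
  apply add_le_add_left
  have key := four_functions_theorem (α := P → Bool) (β := ℝ)
    (fun σ => F σ * Real.exp (Hg E a b J σ)) (fun σ => Real.exp (Hg E a b J σ))
    (fun σ => Real.exp (Hg E a b J σ)) (fun σ => F σ * Real.exp (Hg E a b J σ))
    (fun σ => mul_nonneg (hF0 σ) (Real.exp_pos _).le) (fun σ => (Real.exp_pos _).le)
    (fun σ => (Real.exp_pos _).le) (fun σ => mul_nonneg (hF0 σ) (Real.exp_pos _).le)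
    (by
      intro s t
      have h1 := exp_super E a b J hJ s t
      have h2 : F s ≤ F (s ⊔ t) := hFm le_sup_left
      calc F s * Real.exp (Hg E a b J s) * Real.exp (Hg E a b J t)
          = F s * (Real.exp (Hg E a b J s) * Real.exp (Hg E a b J t)) := by ring
        _ ≤ F (s ⊔ t) * (Real.exp (Hg E a b J (s ⊓ t)) * Real.exp (Hg E a b J (s ⊔ t))) :=
            mul_le_mul h2 h1 (by positivity) (hF0 _)
        _ = _ := by ring) (cf Λ₁ τ₁) (cf Λ₂ τ₂)
  have h3 : ∑ σ ∈ cf Λ₁ τ₁ ⊼ cf Λ₂ τ₂, Real.exp (Hg E a b J σ) ≤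
      ∑ σ ∈ cf Λ₁ τ₁, Real.exp (Hg E a b J σ) := by
    apply Finset.sum_le_sum_of_subset_of_nonneg
    · intro σ hσ
      rw [Finset.mem_infs] at hσ
      obtain ⟨s, hs, t, ht, rfl⟩ := hσ
      exact (h s hs t ht).1
    · intro _ _ _
      positivity
  have h4 : ∑ σ ∈ cf Λ₁ τ₁ ⊻ cf Λ₂ τ₂, F σ * Real.exp (Hg E a b J σ) ≤
      ∑ σ ∈ cf Λ₂ τ₂, F σ * Real.exp (Hg E a b J σ) := by
    apply Finset.sum_le_sum_of_subset_of_nonneg
    · intro σ hσ
      rw [Finset.mem_sups] at hσ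
      obtain ⟨s, hs, t, ht, rfl⟩ := hσ
      exact (h s hs t ht).2
    · intro σ _ _
      exact mul_nonneg (hF0 σ) (Real.exp_pos _).le
  unfold av
  rw [div_le_div_iff₀ (Zg_one_pos _ _ _ _ _ _) (Zg_one_pos _ _ _ _ _ _)]
  unfold Zg
  simp only [one_mul]
  refine le_trans key ?_
  rw [mul_comm (∑ σ ∈ cf Λ₂ τ₂, F σ * Real.exp (Hg E a b J σ))]
  refine mul_le_mul h3 h4 ?_ ?_
  · exact Finset.sum_nonneg (fun σ _ => mul_nonneg (hF0 σ) (Real.exp_pos _).le)
  · exact Finset.sum_nonneg (fun σ _ => (Real.exp_pos _).le)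

theorem sand : S_SAND := by
  intro P ι _ E a b J hJ Λ Λ' τ τ' hΛ f hf
  constructor
  · intro h1 h2
    apply compare E a b J hJ Λ' Λ τ' τ _ f hf
    intro s hs t ht
    rw [mem_cf] at hs ht
    constructor
    · rw [mem_cf]
      intro p hp
      have hp' : p ∉ Λ := fun h => hp (hΛ h)
      rw [Pi.inf_apply, hs p hp, ht p hp']
      exact inf_eq_left.2 (h2 p hp)
    · rw [mem_cf]
      intro p hp
      rw [Pi.sup_apply, ht p hp]
      by_cases hp' : p ∈ Λ'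
      · rw [h1 p hp hp']
        cases s p <;> rfl
      · rw [hs p hp']
        exact sup_eq_right.2 (h2 p hp')
  · intro h1 h2
    apply compare E a b J hJ Λ Λ' τ τ' _ f hf
    intro s hs t ht
    rw [mem_cf] at hs ht
    constructor
    · rw [mem_cf]
      intro p hp
      rw [Pi.inf_apply, hs p hp]
      by_cases hp' : p ∈ Λ'
      · rw [h1 p hp hp']
        cases t p <;> rfl
      · rw [ht p hp']
        exact inf_eq_left.2 (h2 p hp')
    · rw [mem_cf]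
      intro p hp
      have hp' : p ∉ Λ := fun h => hp (hΛ h)
      rw [Pi.sup_apply, hs p hp', ht p hp]
      exact sup_eq_right.2 (h2 p hp)

end Pool.Agent.W337.IG
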