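import Pool.Agent.W854.IG.Stmts
import Pool.Agent.W337.IG.Sand

/-!
Positive correlations in finite Ising models with arbitrary fields.
-/

open Finset MeasureTheory Filter Topology

namespace Pool.Agent.W337.IG

open Pool.Agent.W854.IG

theorem sp_mod (s s' : Bool) : sp s + sp s' = sp (s ⊓ s') + sp (s ⊔ s') := by
  cases s <;> cases s' <;> simp

theorem en_super {V ι : Type} [Fintype V] [Fintype ι] (a b : ι → V) (J : ι → ℝ)
    (h : V → ℝ) (hJ : ∀ e, 0 ≤ J e) (s t : V → Bool) :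
    en a b J h s + en a b J h t ≤ en a b J h (s ⊓ t) + en a b J h (s ⊔ t) := by
  unfold en
  have h1 : (∑ e, J e * (sp (s (a e)) * sp (s (b e)))) + ∑ e, J e * (sp (t (a e)) * sp (t (b e))) ≤
      (∑ e, J e * (sp ((s ⊓ t) (a e)) * sp ((s ⊓ t) (b e)))) +
        ∑ e, J e * (sp ((s ⊔ t) (a e)) * sp ((s ⊔ t) (b e))) := by
    rw [← Finset.sum_add_distrib, ← Finset.sum_add_distrib]
    apply Finset.sum_le_sum
    intro e _
    rw [← mul_add, ← mul_add]
    exact mul_le_mul_of_nonneg_left (sp_super _ _ _ _) (hJ e)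
  have h2 : (∑ v, h v * sp (s v)) + ∑ v, h v * sp (t v) =
      (∑ v, h v * sp ((s ⊓ t) v)) + ∑ v, h v * sp ((s ⊔ t) v) := by
    rw [← Finset.sum_add_distrib, ← Finset.sum_add_distrib]
    apply Finset.sum_congr rfl
    intro v _
    rw [← mul_add, ← mul_add, sp_mod]
    rfl
  linarith

theorem four {V ι : Type} [Fintype V] [DecidableEq V] [Fintype ι] (a b : ι → V) (J : ι → ℝ)
    (h : V → ℝ) (hJ : ∀ e, 0 ≤ J e) (g₁ g₂ g₃ g₄ : (V → Bool) → ℝ)
    (h1 : ∀ s, 0 ≤ g₁ s) (h2 : ∀ s, 0 ≤ g₂ s) (h3 : ∀ s, 0 ≤ g₃ s) (h4 : ∀ s, 0 ≤ g₄ s)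
    (hg : ∀ s t, g₁ s * g₂ t ≤ g₃ (s ⊓ t) * g₄ (s ⊔ t)) :
    Zf a b J h g₁ * Zf a b J h g₂ ≤ Zf a b J h g₄ * Zf a b J h g₃ := by
  rw [mul_comm (Zf a b J h g₄)]
  refine four_functions_theorem_univ (α := V → Bool) (β := ℝ)
    (fun σ => g₁ σ * Real.exp (en a b J h σ)) (fun σ => g₂ σ * Real.exp (en a b J h σ))
    (fun σ => g₃ σ * Real.exp (en a b J h σ)) (fun σ => g₄ σ * Real.exp (en a b J h σ))
    (fun σ => mul_nonneg (h1 σ) (Real.exp_pos _).le) (fun σ => mul_nonneg (h2 σ) (Real.exp_pos _).le)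
    (fun σ => mul_nonneg (h3 σ) (Real.exp_pos _).le) (fun σ => mul_nonneg (h4 σ) (Real.exp_pos _).le)
    ?_
  intro s t
  have h5 : Real.exp (en a b J h s) * Real.exp (en a b J h t) ≤
      Real.exp (en a b J h (s ⊓ t)) * Real.exp (en a b J h (s ⊔ t)) := by
    rw [← Real.exp_add, ← Real.exp_add]
    exact Real.exp_le_exp.2 (en_super a b J h hJ s t)
  calc g₁ s * Real.exp (en a b J h s) * (g₂ t * Real.exp (en a b J h t))
      = (g₁ s * g₂ t) * (Real.exp (en a b J h s) * Real.exp (en a b J h t)) := by ring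
    _ ≤ (g₃ (s ⊓ t) * g₄ (s ⊔ t)) *
        (Real.exp (en a b J h (s ⊓ t)) * Real.exp (en a b J h (s ⊔ t))) :=
        mul_le_mul (hg s t) h5 (by positivity) (mul_nonneg (h3 _) (h4 _))
    _ = _ := by ring

theorem ind2_nonneg {V : Type} [DecidableEq V] (x y : V) (s t : Bool) (σ : V → Bool) :
    0 ≤ ind2 x y s t σ := by
  unfold ind2
  split_ifs <;> norm_num

theorem ind3_nonneg {V : Type} [DecidableEq V] (x y z : V) (s t r : Bool) (σ : V → Bool) :
    0 ≤ ind3 x y z s t r σ := by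
  unfold ind3
  split_ifs <;> norm_num

theorem fkg2 : S_FKG2 := by
  intro V ι _ _ _ a b J h x y hJ
  refine four a b J h hJ _ _ _ _ (ind2_nonneg x y _ _) (ind2_nonneg x y _ _)
    (ind2_nonneg x y _ _) (ind2_nonneg x y _ _) ?_
  intro s t
  by_cases h1 : s x = true ∧ s y = false
  · by_cases h2 : t x = false ∧ t y = true
    · simp [ind2, h1.1, h1.2, h2.1, h2.2]
    · have h3 : ind2 x y false true t = 0 := by unfold ind2; rw [if_neg h2]
      rw [h3, mul_zero]
      exact mul_nonneg (ind2_nonneg _ _ _ _ _) (ind2_nonneg _ _ _ _ _)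
  · have h3 : ind2 x y true false s = 0 := by unfold ind2; rw [if_neg h1]
    rw [h3, zero_mul]
    exact mul_nonneg (ind2_nonneg _ _ _ _ _) (ind2_nonneg _ _ _ _ _)

theorem fkg3 : S_FKG3 := by
  intro V ι _ _ _ a b J h x y z r hJ
  refine four a b J h hJ _ _ _ _ (ind3_nonneg x y z _ _ _) (ind3_nonneg x y z _ _ _)
    (ind3_nonneg x y z _ _ _) (ind3_nonneg x y z _ _ _) ?_
  intro s t
  by_cases h1 : s x = true ∧ s y = r ∧ s z = false
  · by_cases h2 : t x = false ∧ t y = r ∧ t z = true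
    · have h3 : ind3 x y z false r false (s ⊓ t) = 1 := by
        unfold ind3
        rw [if_pos]
        simp [h1.1, h1.2.1, h1.2.2, h2.1, h2.2.1, h2.2.2]
      have h4 : ind3 x y z true r true (s ⊔ t) = 1 := by
        unfold ind3
        rw [if_pos]
        simp [h1.1, h1.2.1, h1.2.2, h2.1, h2.2.1, h2.2.2]
      rw [h3, h4]
      unfold ind3
      rw [if_pos h1, if_pos h2]
    · have h3 : ind3 x y z false r true t = 0 := by unfold ind3; rw [if_neg h2]
      rw [h3, mul_zero]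
      exact mul_nonneg (ind3_nonneg _ _ _ _ _ _ _) (ind3_nonneg _ _ _ _ _ _ _)
  · have h3 : ind3 x y z true r false s = 0 := by unfold ind3; rw [if_neg h1]
    rw [h3, zero_mul]
    exact mul_nonneg (ind3_nonneg _ _ _ _ _ _ _) (ind3_nonneg _ _ _ _ _ _ _)

end Pool.Agent.W337.IG
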