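import Pool.Agent.W854.IG.Stmts

/-!
The discrete subharmonicity argument.
-/

set_option autoImplicit false

open Finset

namespace Pool.Agent.W337.IG

open Pool.Agent.W854.IG

section
variable {W K : ℕ} {Q : ℕ → ℕ → ℕ → ℕ → ℝ} {m : ℕ → ℝ}

/-- the potential at the vertex `(x, b+1)` -/
noncomputable def Vp (Q : ℕ → ℕ → ℕ → ℕ → ℝ) (m : ℕ → ℝ) (x b : ℕ) : ℝ :=
  m x ^ 2 + ∑ j ∈ Finset.range b, (Q x (j + 1) x (j + 2) ^ 2 - Q x (j + 1) x (j + 1) ^ 2)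

/-- the horizontal increment -/
noncomputable def Dp (Q : ℕ → ℕ → ℕ → ℕ → ℝ) (x b : ℕ) : ℝ :=
  Q x b (x + 1) (b + 1) ^ 2 - Q x b x (b + 1) ^ 2

theorem Vp_zero (x : ℕ) : Vp Q m x 0 = m x ^ 2 := by simp [Vp]

theorem Vp_succ (x b : ℕ) : Vp Q m x (b + 1) - Vp Q m x b =
    Q x (b + 1) x (b + 2) ^ 2 - Q x (b + 1) x (b + 1) ^ 2 := by
  unfold Vp
  rw [Finset.sum_range_succ]
  ring

theorem s2 : Real.sqrt 2 ^ 2 = 2 := Real.sq_sqrt (by norm_num)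

/-- vertical increment seen from the left face -/
theorem Vp_succ' (h : QSys W K Q m) (x b : ℕ) (hx : x < W) (hb : b + 1 ≤ K) :
    Vp Q m (x + 1) (b + 1) - Vp Q m (x + 1) b =
      Q x (b + 1) (x + 1) (b + 2) ^ 2 - Q x (b + 1) (x + 1) (b + 1) ^ 2 := by
  rw [Vp_succ]
  have h1 := h.v1 x (b + 1) hx (by omega) hb
  have h2 := h.v2 x (b + 1) hx (by omega) hb
  have e1 : b + 1 + 1 = b + 2 := rfl
  rw [e1] at h1 h2
  have h3 : Q (x + 1) (b + 1) (x + 1) (b + 1) =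
      -(Real.sqrt 2 * Q x (b + 1) (x + 1) (b + 1) - Q x (b + 1) (x + 1) (b + 2)) := by
    linarith
  rw [h2, h3]
  have := s2
  ring_nf
  rw [this]
  ring

theorem Dp_up (h : QSys W K Q m) (x b : ℕ) (hx : x ≤ W) (hb : b < K) :
    Dp Q x b = Q x (b + 1) (x + 1) (b + 1) ^ 2 - Q x (b + 1) x (b + 1) ^ 2 := by
  unfold Dp
  rw [h.h1 x b hx hb, h.h2 x b hx hb]
  have := s2
  ring_nf
  rw [this]
  ring

theorem hor (h : QSys W K Q m) (x b : ℕ) (hx : x < W) (hb : b ≤ K) :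
    Vp Q m (x + 1) b - Vp Q m x b = Dp Q x b := by
  induction b with
  | zero =>
    rw [Vp_zero, Vp_zero]
    unfold Dp
    rw [h.row1 x (x + 1) hx.le (by omega), h.row1 x x hx.le (by omega)]
  | succ b ih =>
    have h1 := ih (by omega)
    have h2 := Vp_succ' h x b hx hb
    have h3 := Vp_succ (Q := Q) (m := m) x b
    have h4 := Dp_up h x b hx.le (by omega)
    have h5 : Dp Q x (b + 1) = Q x (b + 1) (x + 1) (b + 2) ^ 2 - Q x (b + 1) x (b + 2) ^ 2 := rfl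
    rw [h5]
    linarith

theorem lap_bulk (h : QSys W K Q m) (x b : ℕ) (hx : x < W) (hb : b + 1 < K) :
    0 ≤ Dp Q (x + 1) (b + 1) - Dp Q x (b + 1) +
      (Vp Q m (x + 1) (b + 2) - Vp Q m (x + 1) (b + 1)) -
      (Vp Q m (x + 1) (b + 1) - Vp Q m (x + 1) b) := by
  rw [show Vp Q m (x + 1) (b + 2) - Vp Q m (x + 1) (b + 1) =
    Q x (b + 2) (x + 1) (b + 3) ^ 2 - Q x (b + 2) (x + 1) (b + 2) ^ 2 from
    Vp_succ' h x (b + 1) hx (by omega), Vp_succ' h x b hx (by omega)]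
  -- names
  obtain ⟨X1, hX1⟩ : ∃ X1, X1 = Q x (b + 1) (x + 1) (b + 2) := ⟨_, rfl⟩
  obtain ⟨X2, hX2⟩ : ∃ X2, X2 = Q x (b + 2) (x + 1) (b + 2) := ⟨_, rfl⟩
  obtain ⟨X3, hX3⟩ : ∃ X3, X3 = - Q (x + 1) (b + 2) (x + 1) (b + 2) := ⟨_, rfl⟩
  obtain ⟨X4, hX4⟩ : ∃ X4, X4 = - Q (x + 1) (b + 1) (x + 1) (b + 2) := ⟨_, rfl⟩
  have e1 : Dp Q (x + 1) (b + 1) = (X3 - Real.sqrt 2 * X4) ^ 2 - X4 ^ 2 := by
    have h1 := h.h1 (x + 1) (b + 1) (by omega) hb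
    have h1' : Q (x + 1) (b + 2) (x + 1) (b + 2) =
      Real.sqrt 2 * Q (x + 1) (b + 1) (x + 1) (b + 2) - Q (x + 1) (b + 1) (x + 2) (b + 2) := h1
    have h2 : Q (x + 1) (b + 1) (x + 2) (b + 2) = X3 - Real.sqrt 2 * X4 := by
      rw [hX3, hX4]
      linarith
    show Q (x + 1) (b + 1) (x + 2) (b + 2) ^ 2 - Q (x + 1) (b + 1) (x + 1) (b + 2) ^ 2 = _
    rw [h2, hX4]
    ring
  have e2 : Dp Q x (b + 1) = X1 ^ 2 - (Real.sqrt 2 * X1 - X2) ^ 2 := by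
    have h1 : Q x (b + 2) (x + 1) (b + 2) =
      Real.sqrt 2 * Q x (b + 1) (x + 1) (b + 2) - Q x (b + 1) x (b + 2) :=
      h.h2 x (b + 1) (by omega) hb
    have h2 : Q x (b + 1) x (b + 2) = Real.sqrt 2 * X1 - X2 := by
      rw [hX1, hX2]
      linarith
    show Q x (b + 1) (x + 1) (b + 2) ^ 2 - Q x (b + 1) x (b + 2) ^ 2 = _
    rw [h2, hX1]
  have e3 : Q x (b + 2) (x + 1) (b + 3) = Real.sqrt 2 * X2 - X3 := by
    have h1 : - Q (x + 1) (b + 2) (x + 1) (b + 2) =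
      Real.sqrt 2 * Q x (b + 2) (x + 1) (b + 2) - Q x (b + 2) (x + 1) (b + 3) :=
      h.v1 x (b + 2) hx (by omega) (by omega)
    rw [hX2, hX3]
    linarith
  have e4 : Q x (b + 1) (x + 1) (b + 1) = Real.sqrt 2 * X1 + X4 := by
    have h1 : Q (x + 1) (b + 1) (x + 1) (b + 2) =
      Real.sqrt 2 * Q x (b + 1) (x + 1) (b + 2) - Q x (b + 1) (x + 1) (b + 1) :=
      h.v2 x (b + 1) hx (by omega) (by omega)
    rw [hX1, hX4]
    linarith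
  rw [e1, e2, e3, e4, ← hX1, ← hX2]
  have hs := s2
  have key : (X3 - Real.sqrt 2 * X4) ^ 2 - X4 ^ 2 - (X1 ^ 2 - (Real.sqrt 2 * X1 - X2) ^ 2) +
      ((Real.sqrt 2 * X2 - X3) ^ 2 - X2 ^ 2) - (X1 ^ 2 - (Real.sqrt 2 * X1 + X4) ^ 2) =
      (X1 - Real.sqrt 2 * X2 + X3) ^ 2 + (X3 - Real.sqrt 2 * X4 - X1) ^ 2 +
        (Real.sqrt 2 ^ 2 - 2) * (2 * X1 ^ 2) := by
    ring
  rw [key, hs]
  nlinarith [sq_nonneg (X1 - Real.sqrt 2 * X2 + X3), sq_nonneg (X3 - Real.sqrt 2 * X4 - X1)]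

theorem lap_bottom (h : QSys W K Q m) (x : ℕ) (hx : x < W) (hK : 1 ≤ K) :
    2 * (Real.sqrt 2 - 1) * m (x + 1) ^ 2 ≤ Dp Q (x + 1) 0 - Dp Q x 0 +
      (Vp Q m (x + 1) 1 - Vp Q m (x + 1) 0) := by
  rw [show Vp Q m (x + 1) 1 - Vp Q m (x + 1) 0 =
    Q x 1 (x + 1) 2 ^ 2 - Q x 1 (x + 1) 1 ^ 2 from Vp_succ' h x 0 hx (by omega)]
  obtain ⟨M, hM⟩ : ∃ M, M = m (x + 1) := ⟨_, rfl⟩
  obtain ⟨X2, hX2⟩ : ∃ X2, X2 = Q x 1 (x + 1) 1 := ⟨_, rfl⟩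
  obtain ⟨X3, hX3⟩ : ∃ X3, X3 = - Q (x + 1) 1 (x + 1) 1 := ⟨_, rfl⟩
  have r1 : Q x 0 (x + 1) 1 = M := by rw [hM]; exact h.row1 x (x + 1) hx.le (by omega)
  have r2 : Q (x + 1) 0 (x + 1) 1 = M := by rw [hM]; exact h.row1 (x + 1) (x + 1) hx (by omega)
  have e1 : Dp Q (x + 1) 0 = (X3 + Real.sqrt 2 * M) ^ 2 - M ^ 2 := by
    have h1 : Q (x + 1) 1 (x + 1) 1 =
      Real.sqrt 2 * Q (x + 1) 0 (x + 1) 1 - Q (x + 1) 0 (x + 2) 1 := h.h1 (x + 1) 0 hx (by omega)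
    have h2 : Q (x + 1) 0 (x + 2) 1 = X3 + Real.sqrt 2 * M := by
      rw [r2] at h1
      rw [hX3]
      linarith
    show Q (x + 1) 0 (x + 2) 1 ^ 2 - Q (x + 1) 0 (x + 1) 1 ^ 2 = _
    rw [h2, r2]
  have e2 : Dp Q x 0 = M ^ 2 - (Real.sqrt 2 * M - X2) ^ 2 := by
    have h1 : Q x 1 (x + 1) 1 = Real.sqrt 2 * Q x 0 (x + 1) 1 - Q x 0 x 1 :=
      h.h2 x 0 hx.le (by omega)
    have h2 : Q x 0 x 1 = Real.sqrt 2 * M - X2 := by
      rw [r1] at h1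
      rw [hX2]
      linarith
    show Q x 0 (x + 1) 1 ^ 2 - Q x 0 x 1 ^ 2 = _
    rw [h2, r1]
  have e3 : Q x 1 (x + 1) 2 = Real.sqrt 2 * X2 - X3 := by
    have h1 : - Q (x + 1) 1 (x + 1) 1 =
      Real.sqrt 2 * Q x 1 (x + 1) 1 - Q x 1 (x + 1) 2 := h.v1 x 1 hx (by omega) (by omega)
    rw [hX2, hX3]
    linarith
  rw [e1, e2, e3, ← hX2, ← hM]
  have hs := s2
  have hs1 : Real.sqrt 2 ≤ 2 := by
    rw [Real.sqrt_le_left (by norm_num)]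
    norm_num
  have hs0 : 0 ≤ Real.sqrt 2 := Real.sqrt_nonneg 2
  obtain ⟨r, hr⟩ : ∃ r, r = Real.sqrt 2 := ⟨_, rfl⟩
  rw [← hr] at hs hs1 hs0 ⊢
  have key : (X3 + r * M) ^ 2 - M ^ 2 - (M ^ 2 - (r * M - X2) ^ 2) +
      ((r * X2 - X3) ^ 2 - X2 ^ 2) - 2 * (r - 1) * M ^ 2 =
      (1 - r / 2) * (X2 + X3) ^ 2 + (1 + r / 2) * (X2 - X3 - (2 * r - 2) * M) ^ 2 := by
    have h3 : r ^ 3 = 2 * r := by rw [pow_succ, hs]
    ring_nf
    rw [h3, hs]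
    ring
  have h1 : 0 ≤ (1 - r / 2) * (X2 + X3) ^ 2 := mul_nonneg (by linarith) (sq_nonneg _)
  have h2 : 0 ≤ (1 + r / 2) * (X2 - X3 - (2 * r - 2) * M) ^ 2 :=
    mul_nonneg (by linarith) (sq_nonneg _)
  linarith

theorem row_le (h : QSys W K Q m) (b : ℕ) (hb : b ≤ K) :
    ∑ i ∈ Finset.range W, (Dp Q (i + 1) b - Dp Q i b) ≤ 2 := by
  rw [Finset.sum_range_sub (fun i => Dp Q i b) W]
  have h1 : Q W b (W + 1) (b + 1) = Q W b 0 (K + 1) :=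
    h.right W b (b + 1) le_rfl hb (by omega) (by omega)
  have h2 : Q 0 b 0 (b + 1) = Q 0 b 0 (K + 1) :=
    h.left 0 b (b + 1) (by omega) hb (by omega) (by omega)
  have a1 := h.g0 W b le_rfl hb
  have a2 := h.g1 W b le_rfl hb
  have a3 := h.g0 0 b (by omega) hb
  have a4 := h.g1 0 b (by omega) hb
  unfold Dp
  rw [h1, h2]
  nlinarith [sq_nonneg (Q W b W (b + 1)), sq_nonneg (Q 0 b (0 + 1) (b + 1))]

/-- row sums -/
noncomputable def Sp (W : ℕ) (Q : ℕ → ℕ → ℕ → ℕ → ℝ) (m : ℕ → ℝ) (b : ℕ) : ℝ :=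
  ∑ i ∈ Finset.range W, Vp Q m (i + 1) b

theorem step0 (h : QSys W K Q m) (hK : 1 ≤ K) :
    2 * (Real.sqrt 2 - 1) * Sp W Q m 0 - 2 ≤ Sp W Q m 1 - Sp W Q m 0 := by
  have h1 : ∑ i ∈ Finset.range W, 2 * (Real.sqrt 2 - 1) * m (i + 1) ^ 2 ≤
      ∑ i ∈ Finset.range W, (Dp Q (i + 1) 0 - Dp Q i 0 +
        (Vp Q m (i + 1) 1 - Vp Q m (i + 1) 0)) :=
    Finset.sum_le_sum (fun i hi => lap_bottom h i (Finset.mem_range.1 hi) hK)
  rw [Finset.sum_add_distrib, ← Finset.mul_sum, Finset.sum_sub_distrib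
    (f := fun i => Vp Q m (i + 1) 1)] at h1
  have h2 := row_le h 0 (by omega)
  have h3 : ∑ i ∈ Finset.range W, m (i + 1) ^ 2 = Sp W Q m 0 := by
    unfold Sp
    exact Finset.sum_congr rfl (fun i _ => (Vp_zero _).symm)
  rw [h3] at h1
  unfold Sp at h1 ⊢
  linarith

theorem step1 (h : QSys W K Q m) (b : ℕ) (hb : b + 1 < K) :
    Sp W Q m (b + 1) - Sp W Q m b - 2 ≤ Sp W Q m (b + 2) - Sp W Q m (b + 1) := by
  have h1 : 0 ≤ ∑ i ∈ Finset.range W, (Dp Q (i + 1) (b + 1) - Dp Q i (b + 1) +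
      (Vp Q m (i + 1) (b + 2) - Vp Q m (i + 1) (b + 1)) -
      (Vp Q m (i + 1) (b + 1) - Vp Q m (i + 1) b)) :=
    Finset.sum_nonneg (fun i hi => lap_bulk h i b (Finset.mem_range.1 hi) hb)
  rw [Finset.sum_sub_distrib, Finset.sum_add_distrib,
    Finset.sum_sub_distrib (f := fun i => Vp Q m (i + 1) (b + 2)),
    Finset.sum_sub_distrib (f := fun i => Vp Q m (i + 1) (b + 1))] at h1
  have h2 := row_le h (b + 1) (by omega)
  unfold Sp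
  linarith

theorem Vp_top (h : QSys W K Q m) (x : ℕ) (hx : x ≤ W) : Vp Q m x K = 1 := by
  induction x with
  | zero =>
    unfold Vp
    rw [h.m0, Finset.sum_eq_zero]
    · norm_num
    · intro j hj
      rw [Finset.mem_range] at hj
      rw [h.left 0 (j + 1) (j + 2) (by omega) (by omega) (by omega) (by omega),
        h.left 0 (j + 1) (j + 1) (by omega) (by omega) (by omega) (by omega), sub_self]
  | succ x ih =>
    have h1 := hor h x K (by omega) le_rfl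
    have h2 : Dp Q x K = 0 := by
      unfold Dp
      rw [h.top x K (x + 1) (by omega) le_rfl (by omega), h.top x K x (by omega) le_rfl (by omega),
        sub_self]
    rw [ih (by omega), h2] at h1
    linarith

theorem harm_aux (h : QSys W K Q m) (hK : 1 ≤ K) : ∀ b, b < K →
    2 * (Real.sqrt 2 - 1) * Sp W Q m 0 - 2 * ((b : ℝ) + 1) ≤ Sp W Q m (b + 1) - Sp W Q m b := by
  intro b
  induction b with
  | zero =>
    intro _
    have := step0 h hK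
    push_cast
    linarith
  | succ b ih =>
    intro hb
    have h1 := ih (by omega)
    have h2 := step1 h b hb
    have e : b + 1 + 1 = b + 2 := rfl
    rw [e]
    push_cast
    linarith

theorem harm_aux2 (h : QSys W K Q m) (hK : 1 ≤ K) : ∀ b, b ≤ K →
    Sp W Q m 0 * (1 + 2 * (Real.sqrt 2 - 1) * b) - b * (b + 1) ≤ Sp W Q m b := by
  intro b
  induction b with
  | zero =>
    intro _
    simp
  | succ b ih =>
    intro hb
    have h1 := ih (by omega)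
    have h2 := harm_aux h hK b (by omega)
    push_cast
    nlinarith

end

theorem harm : S_HARM := by
  intro W K Q m hK h
  have h1 := harm_aux2 h hK K le_rfl
  have h2 : Sp W Q m K = W := by
    unfold Sp
    rw [Finset.sum_congr rfl (fun i hi => Vp_top h (i + 1) (Finset.mem_range.1 hi))]
    simp
  have h3 : ∑ x ∈ Finset.Icc 1 W, m x ^ 2 = Sp W Q m 0 := by
    unfold Sp
    simp only [Vp_zero]
    rw [Finset.range_eq_Ico, Finset.sum_Ico_add' (fun x => m x ^ 2) 0 W 1]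
    rfl
  rw [h3]
  rw [h2] at h1
  linarith

end Pool.Agent.W337.IG
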