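import Pool.Agent.W854.IG.Stmts
import Pool.Agent.W854.IG.Base

/-!
Comparison of the half box with shifted and reflected rectangles.
-/

set_option autoImplicit false

namespace Pool.Agent.W337.IG

open Pool.Agent.W854.IG

theorem Zg_map (φ : Pt ≃ Pt) (ψ : Pt × Bool → Pt × Bool) (hψ : Function.Injective ψ)
    (hends : ∀ e, (φ e.1 = (ψ e).1 ∧ φ (nb e) = nb (ψ e)) ∨
      (φ e.1 = nb (ψ e) ∧ φ (nb e) = (ψ e).1))
    (β : ℝ) (Λ : Finset Pt) (E : Finset (Pt × Bool)) (g : (Pt → Bool) → ℝ) :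
    Zg (Λ.map φ.toEmbedding) (fun _ => true) (E.image ψ) Prod.fst nb (fun _ => β)
      (fun σ => g (fun p => σ (φ p))) =
    Zg Λ (fun _ => true) E Prod.fst nb (fun _ => β) g := by
  unfold Zg
  refine Finset.sum_bij' (fun σ _ => fun p => σ (φ p)) (fun σ _ => fun p => σ (φ.symm p))
    ?_ ?_ ?_ ?_ ?_
  · intro σ hσ
    rw [mem_cf] at hσ ⊢
    intro p hp
    apply hσ
    intro h
    rw [Finset.mem_map] at h
    obtain ⟨q, hq, hqp⟩ := h
    exact hp (φ.injective hqp ▸ hq)
  · intro σ hσ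
    rw [mem_cf] at hσ ⊢
    intro p hp
    apply hσ
    intro h
    apply hp
    rw [Finset.mem_map]
    exact ⟨φ.symm p, h, φ.apply_symm_apply p⟩
  · intro σ _
    funext p
    simp
  · intro σ _
    funext p
    simp
  · intro σ _
    congr 2
    unfold Hg
    rw [Finset.sum_image (fun x _ y _ h => hψ h)]
    apply Finset.sum_congr rfl
    intro e _
    show β * (sp (σ (ψ e).1) * sp (σ (nb (ψ e)))) = β * (sp (σ (φ e.1)) * sp (σ (φ (nb e))))
    rcases hends e with ⟨h1, h2⟩ | ⟨h1, h2⟩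
    · rw [h1, h2]
    · rw [h1, h2]
      ring

theorem avL_map (φ : Pt ≃ Pt) (ψ : Pt × Bool → Pt × Bool) (hψ : Function.Injective ψ)
    (hends : ∀ e, (φ e.1 = (ψ e).1 ∧ φ (nb e) = nb (ψ e)) ∨
      (φ e.1 = nb (ψ e) ∧ φ (nb e) = (ψ e).1))
    (β : ℝ) (Λ : Finset Pt) (E : Finset (Pt × Bool)) (p : Pt) :
    avL β (Λ.map φ.toEmbedding) (fun _ => true) (E.image ψ) (fun σ => sp (σ (φ p))) =
      avL β Λ (fun _ => true) E (fun σ => sp (σ p)) := by
  unfold avL av
  rw [← Zg_map φ ψ hψ hends β Λ E (fun σ => sp (σ p)), ← Zg_map φ ψ hψ hends β Λ E (fun _ => 1)]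

theorem half_le (hS : S_SAND) (β : ℝ) (hβ : 0 ≤ β) (n : ℕ) (φ : Pt ≃ Pt)
    (ψ : Pt × Bool → Pt × Bool) (hψ : Function.Injective ψ)
    (hends : ∀ e, (φ e.1 = (ψ e).1 ∧ φ (nb e) = nb (ψ e)) ∨
      (φ e.1 = nb (ψ e) ∧ φ (nb e) = (ψ e).1)) (Λ : Finset Pt) (E : Finset (Pt × Bool)) (p : Pt)
    (h1 : ∀ q ∈ Λ, φ q ∈ box n \ line n) (h2 : ∀ e ∈ E, ψ e ∈ halfEdges n)
    (h3 : ∀ e ∈ halfEdges n, (e.1 ∈ Λ.map φ.toEmbedding ∨ nb e ∈ Λ.map φ.toEmbedding) →
      e ∈ E.image ψ) :
    magHalf β n (φ p) ≤ avL β Λ (fun _ => true) E (fun σ => sp (σ p)) := by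
  have hsub : Λ.map φ.toEmbedding ⊆ box n \ line n := by
    intro q hq
    rw [Finset.mem_map] at hq
    obtain ⟨q', hq', rfl⟩ := hq
    exact h1 q' hq'
  have s1 := (hS Pt (Pt × Bool) (halfEdges n) Prod.fst nb (fun _ => β) (fun _ _ => hβ)
    (Λ.map φ.toEmbedding) (box n \ line n) (fun _ => true) (fun _ => true) hsub
    (fun σ => sp (σ (φ p))) (sp_comp_mono _)).1 (fun _ _ _ => rfl) (fun _ _ => le_rfl)
  have s2 : av (Λ.map φ.toEmbedding) (fun _ => true) (halfEdges n) Prod.fst nb (fun _ => β)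
      (fun σ => sp (σ (φ p))) = av (Λ.map φ.toEmbedding) (fun _ => true) (E.image ψ) Prod.fst nb
      (fun _ => β) (fun σ => sp (σ (φ p))) := by
    apply av_edges
    · intro e he
      rw [Finset.mem_image] at he
      obtain ⟨e', he', rfl⟩ := he
      exact h2 e' he'
    · intro e he hne
      have h4 := mt (h3 e he) hne
      rw [not_or] at h4
      exact h4
  have s3 := avL_map φ ψ hψ hends β Λ E p
  unfold avL at s3
  unfold magHalf avL
  rw [s2, s3] at s1
  exact s1

/-- the shift -/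
def shE (c : ℤ) : Pt ≃ Pt where
  toFun q := (q.1 + c, q.2)
  invFun q := (q.1 - c, q.2)
  left_inv q := by ext <;> simp
  right_inv q := by ext <;> simp

/-- the shift with reflection -/
def rfE (c : ℤ) : Pt ≃ Pt where
  toFun q := (q.1 + c, -q.2)
  invFun q := (q.1 - c, -q.2)
  left_inv q := by ext <;> simp
  right_inv q := by ext <;> simp

theorem mem_half {n : ℕ} {e : Pt × Bool} : e ∈ halfEdges n ↔
    (e.1 ∈ box n ∨ nb e ∈ box n) ∧ e.1 ∉ line n ∧ nb e ∉ line n := by
  unfold halfEdges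
  rw [Finset.mem_filter, mem_edges]

theorem vol (hS : S_SAND) : S_VOL := by
  intro β n W K i x hβ hx1 hxW hl hr hK1 hKn
  have hK1' : (1 : ℤ) ≤ K := by exact_mod_cast hK1
  have hKn' : (K : ℤ) ≤ n := by exact_mod_cast hKn
  constructor
  · have key := half_le hS β hβ n (shE (i - x)) (fun e => ((e.1.1 + (i - x), e.1.2), e.2)) ?_ ?_
      (rect W K) (rectEdges W K) (x, 1) ?_ ?_ ?_
    · have e1 : shE (i - x) (x, 1) = (i, 1) := by
        show ((x + (i - x), 1) : Pt) = (i, 1)
        congr 1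
        ring
      rw [e1] at key
      exact key
    · rintro ⟨⟨a, b⟩, d⟩ ⟨⟨a', b'⟩, d'⟩ h
      simp only [Prod.mk.injEq] at h ⊢
      exact ⟨⟨by omega, h.1.2⟩, h.2⟩
    · rintro ⟨⟨a, b⟩, d⟩
      left
      refine ⟨rfl, ?_⟩
      cases d
      · simp [nb, shE]
      · simp [nb, shE]
        ring
    · rintro ⟨a, b⟩ hq
      rw [mem_rect] at hq
      rw [Finset.mem_sdiff, mem_box, mem_line]
      simp only [shE, Equiv.coe_fn_mk] at hq ⊢
      omega
    · rintro ⟨⟨a, b⟩, d⟩ he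
      rw [mem_rectEdges] at he
      rw [mem_half, mem_box, mem_box, mem_line, mem_line]
      cases d <;> simp [nb] at he ⊢ <;> omega
    · rintro ⟨⟨a, b⟩, d⟩ he hor
      rw [mem_half, mem_line, mem_line] at he
      rw [Finset.mem_image]
      refine ⟨((a - (i - x), b), d), ?_, ?_⟩
      · rw [mem_rectEdges]
        rcases hor with hor | hor
        · rw [Finset.mem_map] at hor
          obtain ⟨⟨a', b'⟩, hq, hqe⟩ := hor
          rw [mem_rect] at hq
          have hq1 : ((a' + (i - x), b') : Pt) = (a, b) := hqe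
          rw [Prod.mk.injEq] at hq1
          cases d <;> simp only [nb_true, nb_false] at he hq ⊢ <;> simp at he ⊢ <;> omega
        · rw [Finset.mem_map] at hor
          obtain ⟨⟨a', b'⟩, hq, hqe⟩ := hor
          rw [mem_rect] at hq
          have hq1 : ((a' + (i - x), b') : Pt) = nb ((a, b), d) := hqe
          cases d <;> simp only [nb_true, nb_false, Prod.mk.injEq] at he hq hq1 ⊢ <;>
            simp at he ⊢ <;> omega
      · simp
  · have key := half_le hS β hβ n (rfE (i - x))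
      (fun e => ((e.1.1 + (i - x), if e.2 then -e.1.2 else -e.1.2 - 1), e.2)) ?_ ?_
      (rect W K) (rectEdges W K) (x, 1) ?_ ?_ ?_
    · have e1 : rfE (i - x) (x, 1) = (i, -1) := by
        show ((x + (i - x), -1) : Pt) = (i, -1)
        congr 1
        ring
      rw [e1] at key
      exact key
    · rintro ⟨⟨a, b⟩, d⟩ ⟨⟨a', b'⟩, d'⟩ h
      cases d <;> cases d' <;> simp at h ⊢ <;> omega
    · rintro ⟨⟨a, b⟩, d⟩
      cases d
      · right
        simp [nb, rfE]
        ring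
      · left
        simp [nb, rfE]
        ring
    · rintro ⟨a, b⟩ hq
      rw [mem_rect] at hq
      rw [Finset.mem_sdiff, mem_box, mem_line]
      simp only [rfE, Equiv.coe_fn_mk] at hq ⊢
      omega
    · rintro ⟨⟨a, b⟩, d⟩ he
      rw [mem_rectEdges] at he
      rw [mem_half, mem_box, mem_box, mem_line, mem_line]
      cases d <;> simp [nb] at he ⊢ <;> omega
    · rintro ⟨⟨a, b⟩, d⟩ he hor
      rw [mem_half, mem_line, mem_line] at he
      rw [Finset.mem_image]
      refine ⟨((a - (i - x), if d then -b else -b - 1), d), ?_, ?_⟩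
      · rw [mem_rectEdges]
        rcases hor with hor | hor
        · rw [Finset.mem_map] at hor
          obtain ⟨⟨a', b'⟩, hq, hqe⟩ := hor
          rw [mem_rect] at hq
          have hq1 : ((a' + (i - x), -b') : Pt) = (a, b) := hqe
          rw [Prod.mk.injEq] at hq1
          cases d <;> simp [nb] at he hq ⊢ <;> omega
        · rw [Finset.mem_map] at hor
          obtain ⟨⟨a', b'⟩, hq, hqe⟩ := hor
          rw [mem_rect] at hq
          have hq1 : ((a' + (i - x), -b') : Pt) = nb ((a, b), d) := hqe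
          cases d <;> simp [nb] at he hq hq1 ⊢ <;> omega
      · cases d <;> simp

end Pool.Agent.W337.IG
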